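import Pool.Agent.Run7.h745.AH.Fin
import Pool.Agent.Run7.h745.AH.Defs2

/-!
# MP_501a10_an: an uncountable family of simple AH algebras with the same Elliott invariant and
infinite radius of comparison

For every sequence `s : ℕ → Bool` let `L s` be the limit of the algebras
`A_n = ∏_{t ≤ n} C(X_{n,t}, M_{amp t · k_n})`, where `X_{n,t}` is a power of the cone over the real
projective space of dimension `2 · 16^(t+1)`, and `amp t = 4` if `s t = true`, `amp t = 1` otherwise.
The connecting maps consist of coordinate projections (most of the trace), which respect the types
`t`, and of point evaluations, which mix them.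

* The spaces are contractible, `K_0` and the traces do not see the amplifications, so all `L s` have
  the same Elliott invariant.
* By a Borsuk-Ulam argument the radius of comparison is infinite.
* A local radius of comparison at a tracial state recovers `s`.
-/

set_option autoImplicit false

noncomputable section

namespace Pool.Agent.Results.MP_501a10_an.UncountableFamily

open Run7.h745 Pool.Agent.TH249

/-- There is a family, indexed by the (uncountably many) sequences of truth values, of simple separable
unital AH algebras which all have the same Elliott invariant and radius of comparison `∞`, and no two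
of which are isomorphic. -/
theorem result :
    ∃ (L : (ℕ → Bool) → Type) (_ : ∀ s, CStarAlgebra (L s)),
      (∀ s, IsSimpleRing (L s)) ∧ (∀ s, TopologicalSpace.SeparableSpace (L s)) ∧
      (∀ s, AHAlg (L s)) ∧ (∀ s s', SameElliott (L s) (L s')) ∧
      (∀ s, Nonempty (QT (L s))) ∧ (∀ s, radComp (L s) = ⊤) ∧
      ∀ s s', s ≠ s' → IsEmpty (L s ≃⋆ₐ[ℂ] L s') := by
  obtain ⟨L, c, h1, h2, h3, h4⟩ := AH.final
  exact ⟨L, c, h1, h2, fun s => (h3 s).ahAlg, h4⟩

end Pool.Agent.Results.MP_501a10_an.UncountableFamily
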